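import Mathlib
import Pool.Agent.H15.PL3

set_option autoImplicit false

namespace Pool.Agent.Results.MP_4fc6a2_gt.NotPlastic

theorem result (G : AddSubgroup ℝ) (hG : Dense (G : Set ℝ))
    (hA : MeasureTheory.AnalyticSet (G : Set ℝ)) :
    ∃ f : G → G, Function.Bijective f ∧ (∀ x y, dist (f x) (f y) ≤ dist x y) ∧ ¬ Isometry f :=
  Pool.Agent.H15.PL.main G hG hA

end Pool.Agent.Results.MP_4fc6a2_gt.NotPlastic
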